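import Pool.Agent.W558.WD.Stms
import Pool.Agent.W22.W558Restr

set_option autoImplicit false
set_option linter.unusedVariables false
set_option linter.unusedSectionVars false

universe u

namespace Pool.Agent.W462.WD.Res

open Pool.Agent.W558

section aux

variable {k K : Type u} [Field k] [Field K] [Algebra k K]

lemma prod_zpow_sum {ι : Type} (s : Finset ι) (x : K) (hx : x ≠ 0) (n : ι → ℤ) :
    ∏ i ∈ s, x ^ n i = x ^ (∑ i ∈ s, n i) := by
  classical
  induction s using Finset.induction_on with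
  | empty => simp
  | insert a s ha ih => rw [Finset.prod_insert ha, Finset.sum_insert ha, zpow_add₀ hx, ih]

/-- pullback of local monomials along a logarithmic modification -/
lemma fn_ov {R0 R R0' R' : Subalgebra k K} {T T' I I' G : Type} [Fintype I] [Fintype I']
    {M : LM R0 R T I} {M' : LM R0' R' T' I'} {π : T' → T} {Θ : I' → I → ℤ} (hO : Ov M M' π Θ)
    {g : G → K} {Γ : G → I → ℤ} (hF : Fn M g Γ) :
    Fn M' g (fun a i' => ∑ i, Θ i' i * Γ a i) := by
  intro a t'
  obtain ⟨w, hw0, hw, hw', h1⟩ := hF a (π t')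
  refine ⟨w, hw0, hO.le t' hw, hO.le t' hw', ?_⟩
  rw [h1]
  congr 1
  calc ∏ i, M.x (π t') i ^ Γ a i = ∏ i, ∏ i', M'.x t' i' ^ (Θ i' i * Γ a i) := by
        refine Finset.prod_congr rfl fun i _ => ?_
        rw [hO.x t' i, ← Finset.prod_zpow]
        refine Finset.prod_congr rfl fun i' _ => ?_
        rw [zpow_mul]
    _ = ∏ i', ∏ i, M'.x t' i' ^ (Θ i' i * Γ a i) := Finset.prod_comm
    _ = ∏ i', M'.x t' i' ^ (∑ i, Θ i' i * Γ a i) := by
        refine Finset.prod_congr rfl fun i' _ => ?_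
        exact prod_zpow_sum _ _ (M'.x0 t' i') _

end aux

theorem main (hovp : WD_ovp.{u}) (hnorm : WD_norm.{u}) : WD_res.{u} := by
  classical
  rintro k K _ _ _ T I G _ _ _ M g Γ hF hFrc R hRfg hgR0 hRint hfrac
  have : Fintype G := Fintype.ofFinite G
  have hT : Nonempty T := by
    obtain ⟨t, -⟩ := M.cv ⊤ (fun a _ => trivial)
    exact ⟨t⟩
  -- principalize
  let g' : Option G → K := fun o => o.elim 1 g
  let Γ0 : Option G → I → ℤ := fun o => o.elim 0 Γ
  have hF0 : Fn M g' Γ0 := by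
    rintro (_ | b) t
    · refine ⟨1, one_ne_zero, (M.A t).one_mem, by rw [inv_one]; exact (M.A t).one_mem, ?_⟩
      simp [g', Γ0]
    · exact hF b t
  obtain ⟨T1, I1, iT1, iI1, M1, π, Θ, hE, hC⟩ := hovp k K ⊥ ⊤ T I (Option G) M Γ0
  let Γ1 : Option G → I1 → ℤ := fun a i' => ∑ i, Θ i' i * Γ0 a i
  have hF1 : Fn M1 g' Γ1 := fn_ov hE hF0
  have hT1 : Nonempty T1 := by
    obtain ⟨t, -⟩ := M1.cv ⊤ (fun a _ => trivial)
    exact ⟨t⟩
  have hg0 : ∀ b, g b ≠ 0 := by
    intro b
    obtain ⟨t⟩ := hT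
    obtain ⟨w, hw0, -, -, h1⟩ := hF b t
    rw [h1]
    exact mul_ne_zero hw0 (Finset.prod_ne_zero_iff.2 fun i _ => zpow_ne_zero _ (M.x0 t i))
  have hcmp : ∀ t b, g b ∈ M1.A t ∨ (g b)⁻¹ ∈ M1.A t := by
    intro t b
    rcases hC none (some b) t with h1 | h1
    · left
      have h2 := div_mem_of_le M1 t g' Γ1 hF1 (a := none) (b := some b) h1
      have h3 : g' (some b) / g' none = g b := by simp [g']
      rwa [h3] at h2
    · right
      have h2 := div_mem_of_le M1 t g' Γ1 hF1 (a := some b) (b := none) h1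
      have h3 : g' none / g' (some b) = (g b)⁻¹ := by simp [g']
      rwa [h3] at h2
  -- the functions which are inverted
  let s : T1 → Finset G := fun t => Finset.univ.filter fun b => g b ∉ M1.A t
  have hs : ∀ t b, b ∈ s t ↔ g b ∉ M1.A t := by
    intro t b
    simp [s]
  let r : T1 → K := fun t => ∏ b ∈ s t, (g b)⁻¹
  have hrmem : ∀ t, r t ∈ M1.A t := by
    intro t
    refine (M1.A t).prod_mem fun b hb => ?_
    exact (hcmp t b).resolve_left ((hs t b).1 hb)
  have hr0 : ∀ t, r t ≠ 0 := fun t =>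
    Finset.prod_ne_zero_iff.2 fun b _ => inv_ne_zero (hg0 b)
  have hrR : ∀ t, (r t)⁻¹ ∈ R := by
    intro t
    have h1 : (r t)⁻¹ = ∏ b ∈ s t, g b := by
      simp only [r]
      rw [← Finset.prod_inv_distrib]
      exact Finset.prod_congr rfl fun b _ => inv_inv _
    rw [h1]
    exact R.prod_mem fun b _ => hgR0 b
  let C : T1 → Subalgebra k K := fun t => adj (M1.A t) (r t)⁻¹
  have hleC : ∀ t, M1.A t ≤ C t := fun t => le_adj _ _
  have hrC : ∀ t, (r t)⁻¹ ∈ C t := fun t => self_mem_adj _ _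
  have hgC : ∀ t, ∀ b, g b ∈ C t := by
    intro t b
    by_cases h : g b ∈ M1.A t
    · exact hleC t h
    · have h1 : b ∈ s t := (hs t b).2 h
      have h2 : r t = (g b)⁻¹ * ∏ b' ∈ (s t).erase b, (g b')⁻¹ := (Finset.mul_prod_erase _ _ h1).symm
      have h3 : ∏ b' ∈ (s t).erase b, (g b')⁻¹ ∈ M1.A t := by
        refine (M1.A t).prod_mem fun b' hb' => ?_
        exact (hcmp t b').resolve_left ((hs t b').1 (Finset.mem_of_mem_erase hb'))
      have h4 : g b = (∏ b' ∈ (s t).erase b, (g b')⁻¹) * (r t)⁻¹ := by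
        have h5 : ∏ b' ∈ (s t).erase b, (g b')⁻¹ ≠ 0 :=
          Finset.prod_ne_zero_iff.2 fun b _ => inv_ne_zero (hg0 b)
        rw [h2, mul_inv, inv_inv, mul_left_comm, mul_inv_cancel₀ h5, mul_one]
      rw [h4]
      exact (C t).mul_mem (hleC t h3) (hrC t)
  have hRC : ∀ t, R ≤ C t := by
    intro t x hx
    have h1 : IsIntegral (Algebra.adjoin k (Set.range g)) x := hRint x hx
    have hle : Algebra.adjoin k (Set.range g) ≤ C t := by
      refine Algebra.adjoin_le ?_
      rintro _ ⟨b, rfl⟩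
      exact hgC t b
    have h2 : IsIntegral (C t) x := by
      have h3 := h1.map_of_comp_eq (Subalgebra.inclusion hle).toRingHom (RingHom.id K) rfl
      exact h3
    have := M1.sm t
    have hsm : Algebra.Smooth k (C t) := smooth_adj_inv (hrmem t) (hr0 t)
    have hIC : IsIntegrallyClosed (C t) := hnorm k (C t)
    have hfr : IsFractionRing (C t) K := by
      refine IsFractionRing.of_field (C t) K fun z => ?_
      obtain ⟨a, ha, b, hb, hb0, hz⟩ := hFrc (π t) z
      exact ⟨⟨a, hleC t (hE.le t ha)⟩, ⟨b, hleC t (hE.le t hb)⟩, by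
        rw [div_eq_mul_inv]; exact hz⟩
    obtain ⟨y, hy⟩ := IsIntegrallyClosed.isIntegral_iff.1 h2
    rw [← hy]
    exact y.2
  -- generators
  have hfg : ∀ t, ∃ y : Finset K, M1.A t = Algebra.adjoin k (y : Set K) := by
    intro t
    have := M1.sm t
    have h1 : Algebra.FiniteType k (M1.A t) := inferInstance
    obtain ⟨y, hy⟩ := (M1.A t).fg_iff_finiteType.2 h1
    exact ⟨y, hy.symm⟩
  choose y hy using hfg
  have : Fintype T1 := Fintype.ofFinite T1
  obtain ⟨c, hcR, hc0, hc⟩ := Pool.Agent.W22.W558Restr.exists_den R hfrac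
    (Finset.univ.image M1.H ∪ Finset.univ.biUnion fun t => (y t).image fun z => M1.H t * z)
  have hcH : ∀ t, c * M1.H t ∈ R := fun t =>
    hc _ (Finset.mem_union_left _ (Finset.mem_image_of_mem _ (Finset.mem_univ t)))
  have hcHy : ∀ t, ∀ z ∈ y t, c * (M1.H t * z) ∈ R := fun t z hz =>
    hc _ (Finset.mem_union_right _ (Finset.mem_biUnion.2 ⟨t, Finset.mem_univ t,
      Finset.mem_image_of_mem _ hz⟩))
  have hdn1 : ∀ t, ∀ f ∈ M1.A t, ∃ n : ℕ, (c * M1.H t) ^ n * f ∈ R := by
    intro t f hf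
    have hmono : ∀ (n m : ℕ) (f : K), n ≤ m → (c * M1.H t) ^ n * f ∈ R →
        (c * M1.H t) ^ m * f ∈ R := by
      intro n m f hnm h
      obtain ⟨e, rfl⟩ := Nat.exists_eq_add_of_le hnm
      rw [add_comm, pow_add, mul_assoc]
      exact R.mul_mem (R.pow_mem (hcH t) e) h
    rw [hy t] at hf
    induction hf using Algebra.adjoin_induction with
    | mem x hx =>
      refine ⟨1, ?_⟩
      rw [pow_one, mul_assoc]
      exact hcHy t x hx
    | algebraMap a => exact ⟨0, by rw [pow_zero, one_mul]; exact R.algebraMap_mem a⟩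
    | add a b _ _ ha hb =>
      obtain ⟨n, hn⟩ := ha
      obtain ⟨m, hm⟩ := hb
      refine ⟨max n m, ?_⟩
      rw [mul_add]
      exact R.add_mem (hmono _ _ _ (le_max_left _ _) hn) (hmono _ _ _ (le_max_right _ _) hm)
    | mul a b _ _ ha hb =>
      obtain ⟨n, hn⟩ := ha
      obtain ⟨m, hm⟩ := hb
      refine ⟨n + m, ?_⟩
      rw [pow_add, mul_mul_mul_comm]
      exact R.mul_mem hn hm
  have hcan : ∀ (t : T1) (n : ℕ) (f : K), f = f * r t ^ n * ((r t)⁻¹) ^ n := by
    intro t n f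
    rw [mul_assoc, ← mul_pow, mul_inv_cancel₀ (hr0 t), one_pow, mul_one]
  have hrat : ∀ t t', (c * M1.H t') / (c * M1.H t) = M1.H t' / M1.H t := by
    intro t t'
    rw [mul_div_mul_left _ _ hc0]
  let M' : LM R R T1 I1 :=
    { A := C
      H := fun t => c * M1.H t
      x := M1.x
      sm := fun t => by
        have := M1.sm t
        exact smooth_adj_inv (hrmem t) (hr0 t)
      base := hRC
      H0 := fun t => mul_ne_zero hc0 (M1.H0 t)
      HR := hcH
      rt := fun t t' => by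
        rw [hrat]
        exact hleC t (M1.rt t t')
      gl := by
        intro t t' f hf
        obtain ⟨n, hn⟩ := (mem_adj_inv (hrmem t') (hr0 t')).1 hf
        obtain ⟨m, hm⟩ := M1.gl t t' _ hn
        refine ⟨m, ?_⟩
        rw [hrat]
        have h1 : (M1.H t' / M1.H t) ^ m * f =
            (M1.H t' / M1.H t) ^ m * (f * r t' ^ n) * ((r t')⁻¹) ^ n := by
          rw [mul_assoc, ← hcan]
        rw [h1]
        exact (C t).mul_mem (hleC t hm) ((C t).pow_mem (hRC t (hrR t')) n)
      dn := by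
        intro t f hf
        obtain ⟨n, hn⟩ := (mem_adj_inv (hrmem t) (hr0 t)).1 hf
        obtain ⟨m, hm⟩ := hdn1 t _ hn
        refine ⟨m, ?_⟩
        have h1 : (c * M1.H t) ^ m * f = (c * M1.H t) ^ m * (f * r t ^ n) * ((r t)⁻¹) ^ n := by
          rw [mul_assoc, ← hcan]
        rw [h1]
        exact R.mul_mem hm (R.pow_mem (hrR t) n)
      cv := by
        intro V hV
        obtain ⟨t, ht⟩ := M1.cv V (fun a ha => hV a ((bot_le : (⊥ : Subalgebra k K) ≤ R) ha))
        refine ⟨t, ?_⟩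
        refine adj_induction (M1.A t) (r t)⁻¹ (p := fun f => f ∈ V) (fun a ha => ht a ha)
          (fun a b ha hb => V.add_mem _ _ ha hb)
          (fun a ha => V.mul_mem _ _ ha (hV _ (hrR t)))
      xA := fun t i => hleC t (M1.xA t i)
      x0 := M1.x0
      gi := by
        intro t t' i
        obtain ⟨n, hn⟩ := M1.gi t t' i
        exact ⟨n, by rw [hrat]; exact hleC t hn⟩
      snc := fun t => SNC.loc (M1.snc t) (M1.xA t) (hrmem t) (hr0 t) }
  exact ⟨T1, I1, iT1, iI1, M', trivial⟩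

end Pool.Agent.W462.WD.Res
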